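import Pool.Agent.Helper53.Sep.Game

/-!
The regions `C1, C2, C3, C4`.
-/

namespace Pool.Agent.Helper53.Sep

open Finset

def C0 (x y : ℝ) : Prop := 1 ≤ x ∧ 1 ≤ y

def C1 (r x y : ℝ) : Prop := (2 ≤ x ∧ r ≤ y) ∨ (r ≤ x ∧ 2 ≤ y)

/-- corners of the second region; `c = r^2/(r-1)` -/
def C2 (r c x y : ℝ) : Prop :=
  (4 ≤ x ∧ r ^ 2 ≤ y) ∨ (r ^ 2 ≤ x ∧ 4 ≤ y) ∨
  (c ≤ x ∧ r ^ 2 - r + 2 ≤ y) ∨ (r ^ 2 - r + 2 ≤ x ∧ c ≤ y) ∨
  (r + 2 ≤ x ∧ 2 * r ≤ y) ∨ (2 * r ≤ x ∧ r + 2 ≤ y)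

def C3 (r c x y : ℝ) : Prop := 2 * c ≤ x ∧ 2 * c ≤ y ∧ 2 * (r * c) ≤ x + y

def C4 (r c x y : ℝ) : Prop :=
  4 * c ≤ x ∧ 2 * (r * c) ≤ y ∧ 4 * (r * c) ≤ x + y ∧ 2 * (r * (r * c)) ≤ (r - 1) * x + y

lemma up_C0 : Up C0 := by
  rintro x y x' y' ⟨h1, h2⟩ hx hy
  exact ⟨h1.trans hx, h2.trans hy⟩

lemma up_C1 (r : ℝ) : Up (C1 r) := by
  rintro x y x' y' (⟨h1, h2⟩ | ⟨h1, h2⟩) hx hy
  · exact Or.inl ⟨h1.trans hx, h2.trans hy⟩
  · exact Or.inr ⟨h1.trans hx, h2.trans hy⟩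

lemma up_C2 (r c : ℝ) : Up (C2 r c) := by
  rintro x y x' y' h hx hy
  rcases h with h | h | h | h | h | h
  · exact Or.inl ⟨h.1.trans hx, h.2.trans hy⟩
  · exact Or.inr (Or.inl ⟨h.1.trans hx, h.2.trans hy⟩)
  · exact Or.inr (Or.inr (Or.inl ⟨h.1.trans hx, h.2.trans hy⟩))
  · exact Or.inr (Or.inr (Or.inr (Or.inl ⟨h.1.trans hx, h.2.trans hy⟩)))
  · exact Or.inr (Or.inr (Or.inr (Or.inr (Or.inl ⟨h.1.trans hx, h.2.trans hy⟩))))
  · exact Or.inr (Or.inr (Or.inr (Or.inr (Or.inr ⟨h.1.trans hx, h.2.trans hy⟩))))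

lemma up_C3 (r c : ℝ) : Up (C3 r c) := by
  rintro x y x' y' ⟨h1, h2, h3⟩ hx hy
  exact ⟨h1.trans hx, h2.trans hy, by linarith⟩

lemma up_C4 {r : ℝ} (hr : 1 ≤ r) (c : ℝ) : Up (C4 r c) := by
  rintro x y x' y' ⟨h1, h2, h3, h4⟩ hx hy
  exact ⟨h1.trans hx, h2.trans hy, by linarith, by nlinarith⟩

lemma C1.symm {r x y : ℝ} (h : C1 r x y) : C1 r y x := by
  unfold C1 at *; tauto

lemma C2.symm {r c x y : ℝ} (h : C2 r c x y) : C2 r c y x := by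
  unfold C2 at *; tauto

lemma C3.symm {r c x y : ℝ} (h : C3 r c x y) : C3 r c y x := by
  unfold C3 at *
  refine ⟨h.2.1, h.1, by linarith [h.2.2]⟩

/-- sum of strictly bounded terms -/
lemma sum_lt_of {ι : Type} {I : Finset ι} {S : ι → ℝ} {B : ℝ} {r : ℕ} (hI : I.card ≤ r)
    (hB : 0 < B) (hr : 1 ≤ r) (h : ∀ i ∈ I, S i < B) : ∑ i ∈ I, S i < r * B := by
  rcases I.eq_empty_or_nonempty with he | hne
  · subst he
    have : (1 : ℝ) ≤ r := by exact_mod_cast hr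
    simp only [sum_empty]
    positivity
  · have h1 : ∑ i ∈ I, S i < ∑ i ∈ I, B := Finset.sum_lt_sum_of_nonempty hne h
    rw [sum_const, nsmul_eq_mul] at h1
    have h2 : (I.card : ℝ) * B ≤ r * B := by
      apply mul_le_mul_of_nonneg_right _ hB.le
      exact_mod_cast hI
    linarith

/-- `T(C0) ⊇ {x ≥ 2, y ≥ r}` -/
lemma wins1a {r : ℕ} (hr : 2 ≤ r) {t τ : ℝ} (hτ : 0 < τ) (h0 : Wins r 0 t τ C0) :
    Wins r 1 t (τ + 1) (fun x y => 2 ≤ x ∧ (r : ℝ) ≤ y) := by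
  have hr' : (2 : ℝ) ≤ r := by exact_mod_cast hr
  refine step (L := fun p s => s < 1) hτ h0 up_C0 ?_ ?_ ?_ ?_
  · rintro x y x' y' ⟨h1, h2⟩ hx hy
    exact ⟨h1.trans hx, h2.trans hy⟩
  · rintro x y ⟨h1, h2⟩
    exact ⟨by linarith, by linarith⟩
  · rintro x y p s ⟨hx, hy⟩ hp0 hp hs0 hs ⟨hf1, hf2⟩
    unfold C0 at hf1 hf2
    push Not at hf1 hf2
    by_contra hc
    push Not at hc
    have h1 : ¬ (1 ≤ p) := fun h => by linarith [hf1 h]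
    have h2 : ¬ (1 ≤ x - p) := fun h => by linarith [hf2 h]
    push Not at h1 h2
    linarith
  · intro ι I P S x y ⟨hx, hy⟩ hcard hP hS hsP hsS hL hF
    have := sum_lt_of hcard one_pos (by omega) hL
    linarith

lemma wins1 {r : ℕ} (hr : 2 ≤ r) {t τ : ℝ} (hτ : 0 < τ) (h0 : Wins r 0 t τ C0) :
    Wins r 1 t (τ + 1) (C1 r) := by
  rintro x y (⟨h1, h2⟩ | ⟨h1, h2⟩)
  · exact wins1a hr hτ h0 x y ⟨h1, h2⟩
  · exact (wins1a hr hτ h0 y x ⟨h2, h1⟩).symm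

lemma not_C1 {r x y : ℝ} (h : ¬ C1 r x y) : (2 ≤ x → y < r) ∧ (r ≤ x → y < 2) := by
  unfold C1 at h
  push Not at h
  exact ⟨fun h1 => h.1 h1, fun h1 => h.2 h1⟩

lemma dich1 {r : ℝ} {x y p s : ℝ} (hy : 2 * r ≤ y) (hf : Fails (C1 r) x y p s) :
    p < 2 ∨ x - p < 2 := by
  by_contra hc
  push Not at hc
  have h1 := (not_C1 hf.1).1 hc.1
  have h2 := (not_C1 hf.2).1 hc.2
  linarith

lemma wins2a {r : ℕ} (hr : 3 ≤ r) {t τ : ℝ} (hτ : 0 < τ) (h1 : Wins r 1 t τ (C1 r)) :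
    Wins r 2 t (τ + 1) (fun x y => 4 ≤ x ∧ (r : ℝ) ^ 2 ≤ y) := by
  have hr' : (3 : ℝ) ≤ r := by exact_mod_cast hr
  refine step (L := fun p s => p < 2) hτ h1 (up_C1 r) ?_ ?_ ?_ ?_
  · rintro x y x' y' ⟨h1, h2⟩ hx hy
    exact ⟨h1.trans hx, h2.trans hy⟩
  · rintro x y ⟨h1, h2⟩
    exact ⟨by linarith, by nlinarith⟩
  · rintro x y p s ⟨hx, hy⟩ hp0 hp hs0 hs hf
    exact dich1 (by nlinarith) hf
  · intro ι I P S x y ⟨hx, hy⟩ hcard hP hS hsP hsS hL hF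
    have hS' : ∀ i ∈ I, S i < r := by
      intro i hi
      have hp := hL i hi
      exact (not_C1 (hF i hi).2).1 (by linarith)
    have := sum_lt_of hcard (by linarith) (by omega) hS'
    nlinarith

lemma wins2c {r : ℕ} (hr : 3 ≤ r) {t τ : ℝ} (hτ : 0 < τ) (h1 : Wins r 1 t τ (C1 r)) :
    Wins r 2 t (τ + 1) (fun x y => (r : ℝ) + 2 ≤ x ∧ 2 * (r : ℝ) ≤ y) := by
  have hr' : (3 : ℝ) ≤ r := by exact_mod_cast hr
  refine step (L := fun p s => p < 2) hτ h1 (up_C1 r) ?_ ?_ ?_ ?_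
  · rintro x y x' y' ⟨h1, h2⟩ hx hy
    exact ⟨h1.trans hx, h2.trans hy⟩
  · rintro x y ⟨h1, h2⟩
    exact ⟨by linarith, by linarith⟩
  · rintro x y p s ⟨hx, hy⟩ hp0 hp hs0 hs hf
    exact dich1 hy hf
  · intro ι I P S x y ⟨hx, hy⟩ hcard hP hS hsP hsS hL hF
    have hS' : ∀ i ∈ I, S i < 2 := by
      intro i hi
      have hp := hL i hi
      exact (not_C1 (hF i hi).2).2 (by linarith)
    have := sum_lt_of hcard (by norm_num) (by omega) hS'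
    linarith

lemma wins2b {r : ℕ} (hr : 3 ≤ r) {c : ℝ} (hc : c * (r - 1) = (r : ℝ) ^ 2) {t τ : ℝ} (hτ : 0 < τ)
    (h1 : Wins r 1 t τ (C1 r)) :
    Wins r 2 t (τ + 1) (fun x y => c ≤ x ∧ (r : ℝ) ^ 2 - r + 2 ≤ y) := by
  have hr' : (3 : ℝ) ≤ r := by exact_mod_cast hr
  have hc4 : 4 ≤ c := by nlinarith [sq_nonneg ((r : ℝ) - 2)]
  refine step (L := fun p s => p < 2) hτ h1 (up_C1 r) ?_ ?_ ?_ ?_
  · rintro x y x' y' ⟨h1, h2⟩ hx hy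
    exact ⟨h1.trans hx, h2.trans hy⟩
  · rintro x y ⟨h1, h2⟩
    exact ⟨by linarith, by nlinarith⟩
  · rintro x y p s ⟨hx, hy⟩ hp0 hp hs0 hs hf
    exact dich1 (by nlinarith) hf
  · intro ι I P S x y ⟨hx, hy⟩ hcard hP hS hsP hsS hL hF
    have hS' : ∀ i ∈ I, S i < r := by
      intro i hi
      have hp := hL i hi
      exact (not_C1 (hF i hi).2).1 (by linarith)
    by_cases hex : ∃ i ∈ I, (r : ℝ) ≤ x - P i
    · classical
      obtain ⟨i, hi, hxi⟩ := hex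
      have h2 : S i < 2 := (not_C1 (hF i hi).2).2 hxi
      rw [← Finset.add_sum_erase I S hi] at hsS
      have h3 : ∑ j ∈ I.erase i, S j ≤ (r - 1) * r := by
        have h4 : ∑ j ∈ I.erase i, S j ≤ ∑ j ∈ I.erase i, (r : ℝ) :=
          Finset.sum_le_sum (fun j hj => (hS' j (Finset.mem_of_mem_erase hj)).le)
        rw [sum_const, nsmul_eq_mul, Finset.card_erase_of_mem hi] at h4
        have h5 : ((I.card - 1 : ℕ) : ℝ) ≤ r - 1 := by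
          have : 1 ≤ I.card := Finset.card_pos.2 ⟨i, hi⟩
          rw [Nat.cast_sub this]
          have : (I.card : ℝ) ≤ r := by exact_mod_cast hcard
          push_cast
          linarith
        nlinarith
      nlinarith
    · push Not at hex
      rcases Nat.lt_or_ge I.card r with hlt | hge
      · have h6 := sum_lt_of (r := r - 1) (I := I) (S := S) (B := r) (by omega) (by linarith)
          (by omega) hS'
        rw [Nat.cast_sub (by omega)] at h6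
        push_cast at h6
        nlinarith
      · have hcr : I.card = r := le_antisymm hcard hge
        have h7 : ∑ i ∈ I, (x - r) < ∑ i ∈ I, P i := by
          apply Finset.sum_lt_sum_of_nonempty
          · rw [← Finset.card_pos]; omega
          · intro i hi; linarith [hex i hi]
        rw [sum_const, nsmul_eq_mul, hcr, hsP] at h7
        nlinarith

lemma wins2 {r : ℕ} (hr : 3 ≤ r) {c : ℝ} (hc : c * (r - 1) = (r : ℝ) ^ 2) {t τ : ℝ} (hτ : 0 < τ)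
    (h1 : Wins r 1 t τ (C1 r)) : Wins r 2 t (τ + 1) (C2 r c) := by
  rintro x y (⟨h, h'⟩ | ⟨h, h'⟩ | ⟨h, h'⟩ | ⟨h, h'⟩ | ⟨h, h'⟩ | ⟨h, h'⟩)
  · exact wins2a hr hτ h1 x y ⟨h, h'⟩
  · exact (wins2a hr hτ h1 y x ⟨h', h⟩).symm
  · exact wins2b hr hc hτ h1 x y ⟨h, h'⟩
  · exact (wins2b hr hc hτ h1 y x ⟨h', h⟩).symm
  · exact wins2c hr hτ h1 x y ⟨h, h'⟩
  · exact (wins2c hr hτ h1 y x ⟨h', h⟩).symm

end Pool.Agent.Helper53.Sep
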