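import Pool.Agent.Helper53.Sep.Arith

/-!
The third and the fourth step.
-/

namespace Pool.Agent.Helper53.Sep

open Finset

/-- the numerical setting: `c = r + 1 + e`, `e = 1/(r-1)`. -/
structure Par (r e c : ℝ) : Prop where
  hr : 3 ≤ r
  he : e * (r - 1) = 1
  hc : c = r + 1 + e

namespace Par

variable {r e c : ℝ} (P : Par r e c)
include P

lemma e_pos : 0 < e := by
  have h1 := P.he
  have h2 := P.hr
  by_contra h
  push Not at h
  nlinarith

lemma rc : r * c = r ^ 2 + r + 1 + e := by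
  have h1 := P.he
  rw [P.hc]; linarith [h1, mul_comm e (r - 1)] 

lemma c_mul : c * (r - 1) = r ^ 2 := by
  have h1 := P.he
  rw [P.hc]; nlinarith

lemma key : 4 ≤ r + 2 * e := by
  have h1 := P.he
  have h2 := P.hr
  have h3 : 0 ≤ (r + 2 * e - 4) * (r - 1) := by
    have : (r + 2 * e - 4) * (r - 1) = (r - 2) * (r - 3) := by nlinarith
    rw [this]
    apply mul_nonneg <;> linarith
  have h4 : 0 < r - 1 := by linarith
  have := nonneg_of_mul_nonneg_left h3 h4
  linarith

lemma c4 : 4 ≤ c := by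
  have h1 := P.key
  have h2 := P.hr
  have h3 := P.hc
  have h4 := P.e_pos
  linarith

end Par

lemma not_C2 {r c x y : ℝ} (h : ¬ C2 r c x y) :
    (4 ≤ x → y < r ^ 2) ∧ (r ^ 2 ≤ x → y < 4) ∧ (c ≤ x → y < r ^ 2 - r + 2) ∧
    (r ^ 2 - r + 2 ≤ x → y < c) ∧ (r + 2 ≤ x → y < 2 * r) ∧ (2 * r ≤ x → y < r + 2) := by
  unfold C2 at h
  push Not at h
  exact h

lemma dich3_aux1 {r e c : ℝ} (Q : Par r e c) {p q s w : ℝ}
    (hx : 2 * c ≤ p + q) (hs : 2 * (r * c) ≤ p + q + (s + w))
    (h1 : ¬ C2 r c p w) (h2 : ¬ C2 r c q s) (hp : p < r + 2) (hq : q < r + 2)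
    (hw : 2 * r ≤ w) (hsw : w ≤ s) : False := by
  have hr := Q.hr
  have he := Q.e_pos
  have hk := Q.key
  have hrc := Q.rc
  have hc := Q.hc
  have hr2 : 3 * r ≤ r ^ 2 := by nlinarith
  obtain ⟨a1, a2, a3, a4, a5, a6⟩ := not_C2 h1
  obtain ⟨b1, b2, b3, b4, b5, b6⟩ := not_C2 h2
  have hq1 : q < c := by
    by_contra h
    push Not at h
    have := b3 h
    linarith
  have hp1 : c ≤ p := by linarith
  have hw1 := a3 hp1
  have hq2 : q < 4 := by
    by_contra h
    push Not at h
    have := b1 h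
    linarith
  have hp2 : r + 2 ≤ p := by linarith
  linarith

lemma dich3_aux {r e c : ℝ} (Q : Par r e c) {p q s w : ℝ} (hp0 : 0 ≤ p) (hq0 : 0 ≤ q)
    (hs0 : 0 ≤ s) (hw0 : 0 ≤ w) (hxy : p + q ≤ s + w)
    (hx : 2 * c ≤ p + q) (hs : 2 * (r * c) ≤ p + q + (s + w))
    (h1 : ¬ C2 r c p w) (h2 : ¬ C2 r c q s) :
    (p < r + 2 ∧ s < 2 * r) ∨ (q < r + 2 ∧ w < 2 * r) := by
  have hr := Q.hr
  have he := Q.e_pos
  have hk := Q.key
  have hrc := Q.rc
  have hc := Q.hc
  have hr2 : 3 * r ≤ r ^ 2 := by nlinarith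
  obtain ⟨a1, a2, a3, a4, a5, a6⟩ := not_C2 h1
  obtain ⟨b1, b2, b3, b4, b5, b6⟩ := not_C2 h2
  by_contra hno
  push Not at hno
  obtain ⟨n1, n2⟩ := hno
  rcases lt_or_ge p (r + 2) with hp | hp
  · have hs2 := n1 hp
    rcases lt_or_ge q (r + 2) with hq | hq
    · have hw2 := n2 hq
      rcases le_total w s with h | h
      · exact dich3_aux1 Q hx hs h1 h2 hp hq hw2 h
      · exact dich3_aux1 (p := q) (q := p) (s := w) (w := s) Q (by linarith) (by linarith) h2 h1
          hq hp hs2 h
    · have := b5 hq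
      linarith
  · have hw2 := a5 hp
    rcases lt_or_ge q (r + 2) with hq | hq
    · have hw2 := n2 hq
      linarith
    · have := b5 hq
      linarith

lemma dich3 {r e c : ℝ} (Q : Par r e c) :
    Dich (C2 r c) (C3 r c) (fun p s => p < 2 * r ∧ s < 2 * r) := by
  intro x y p s hxy hp0 hp hs0 hs hF
  obtain ⟨hx, hy, hsum⟩ := hxy
  have hr := Q.hr
  rcases le_total x y with h | h
  · rcases dich3_aux Q (p := p) (q := x - p) (s := s) (w := y - s) hp0 (by linarith) hs0
      (by linarith) (by linarith) (by linarith) (by linarith) hF.1 hF.2 with h1 | h1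
    · exact Or.inl ⟨by linarith, h1.2⟩
    · exact Or.inr ⟨by linarith, h1.2⟩
  · rcases dich3_aux Q (p := s) (q := y - s) (s := p) (w := x - p) hs0 (by linarith) hp0
      (by linarith) (by linarith) (by linarith) (by linarith) (fun h => hF.2 h.symm)
      (fun h => hF.1 h.symm) with h1 | h1
    · exact Or.inl ⟨h1.2, by linarith⟩
    · exact Or.inr ⟨h1.2, by linarith⟩

/-- counting form of the sum bound -/
lemma sum_le_count {ι : Type} {I : Finset ι} {S : ι → ℝ} (B : Finset ι) (hB : B ⊆ I) {a b : ℝ}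
    (h1 : ∀ i ∈ I, i ∉ B → S i ≤ a) (h2 : ∀ i ∈ B, S i ≤ a + b) :
    ∑ i ∈ I, S i ≤ I.card * a + B.card * b := by
  classical
  have h3 : ∑ i ∈ I, S i ≤ ∑ i ∈ I, (a + if i ∈ B then b else 0) := by
    apply Finset.sum_le_sum
    intro i hi
    by_cases h : i ∈ B
    · simp [h, h2 i h]
    · simp [h, h1 i hi h]
  have h4 : ∑ i ∈ I, (if i ∈ B then b else 0) = B.card * b := by
    rw [← Finset.sum_filter, Finset.filter_mem_eq_inter, Finset.inter_eq_right.2 hB]
    simp
  rw [Finset.sum_add_distrib, h4] at h3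
  simpa using h3

lemma star3_aux {r : ℕ} {e c : ℝ} (Q : Par r e c) {ι : Type} {I : Finset ι} {P S : ι → ℝ}
    {x y : ℝ} (hx : 2 * c ≤ x) (hsum : 2 * (r * c) ≤ x + y) (hxy : x ≤ y) (hI : I.card ≤ r)
    (hP0 : ∀ i ∈ I, 0 ≤ P i) (hS0 : ∀ i ∈ I, 0 ≤ S i) (hP : ∑ i ∈ I, P i = x)
    (hS : ∑ i ∈ I, S i = y) (hL : ∀ i ∈ I, P i < 2 * r ∧ S i < 2 * r)
    (hF : ∀ i ∈ I, ¬ C2 r c (P i) (y - S i) ∧ ¬ C2 r c (x - P i) (S i)) : False := by
  classical
  have hr := Q.hr
  have he := Q.e_pos
  have hk := Q.key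
  have hrc := Q.rc
  have hc := Q.hc
  have hcm := Q.c_mul
  have hre := Q.he
  have hr2 : 3 * (r : ℝ) ≤ (r : ℝ) ^ 2 := by nlinarith
  have hI' : (I.card : ℝ) ≤ r := by exact_mod_cast hI
  have hne : I.Nonempty := by
    rw [Finset.nonempty_iff_ne_empty]
    rintro rfl
    simp only [sum_empty] at hP
    linarith [Q.c4]
  rcases lt_or_ge x (3 * r + 2) with hA | hB
  · -- range A
    have hP4 : ∀ i ∈ I, P i < 4 := by
      intro i hi
      by_contra h
      push Not at h
      have := (not_C2 (hF i hi).1).1 h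
      have := (hL i hi).2
      nlinarith
    set B := I.filter (fun i => x - 2 * r < P i) with hBdef
    have hBI : B ⊆ I := Finset.filter_subset _ _
    have hBc : B.card ≤ I.card := Finset.card_le_card hBI
    have hle : y ≤ I.card * ((r : ℝ) + 2) + B.card * ((r : ℝ) - 2) := by
      rw [← hS]
      apply sum_le_count B hBI
      · intro i hi hn
        have h1 : P i ≤ x - 2 * r := by
          by_contra h
          push Not at h
          exact hn (Finset.mem_filter.2 ⟨hi, h⟩)
        exact ((not_C2 (hF i hi).2).2.2.2.2.2 (by linarith)).le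
      · intro i hi
        have := (hL i (hBI hi)).2
        linarith
    rcases Nat.lt_or_ge B.card r with hlt | hge
    · have hB1 : (B.card : ℝ) ≤ r - 1 := by
        have : (B.card : ℝ) + 1 ≤ r := by exact_mod_cast hlt
        linarith
      rcases B.eq_empty_or_nonempty with hBe | hBne
      · rw [hBe] at hle
        simp only [card_empty, Nat.cast_zero, zero_mul, add_zero] at hle
        nlinarith
      · obtain ⟨i, hi⟩ := hBne
        have h1 := (Finset.mem_filter.1 hi).2
        have h2 := hP4 i (hBI hi)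
        nlinarith
    · have hBr : B.card = r := le_antisymm (hBc.trans hI) hge
      have hBI' : B = I := Finset.eq_of_subset_of_card_le hBI (by omega)
      have h7 : ∑ i ∈ I, (x - 2 * r) < ∑ i ∈ I, P i := by
        apply Finset.sum_lt_sum_of_nonempty hne
        intro i hi
        rw [← hBI'] at hi
        exact (Finset.mem_filter.1 hi).2
      rw [sum_const, nsmul_eq_mul, hP, ← hBI', hBr] at h7
      nlinarith
  · -- range B
    have hPr : ∀ i ∈ I, P i < r + 2 := by
      intro i hi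
      by_contra h
      push Not at h
      have := (not_C2 (hF i hi).1).2.2.2.2.1 h
      have := (hL i hi).2
      nlinarith
    have hSr : ∀ i ∈ I, S i < r + 2 := by
      intro i hi
      have := hPr i hi
      exact (not_C2 (hF i hi).2).2.2.2.2.2 (by linarith)
    have hPc : ∀ i ∈ I, P i < c := by
      intro i hi
      by_contra h
      push Not at h
      have := (not_C2 (hF i hi).1).2.2.1 h
      have := hSr i hi
      nlinarith
    set B := I.filter (fun i => x - (r ^ 2 - r + 2) < P i) with hBdef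
    have hBI : B ⊆ I := Finset.filter_subset _ _
    have hBc : B.card ≤ I.card := Finset.card_le_card hBI
    have hnotB : ∀ i ∈ I, i ∉ B → S i < c := by
      intro i hi hn
      have h1 : P i ≤ x - (r ^ 2 - r + 2) := by
        by_contra h
        push Not at h
        exact hn (Finset.mem_filter.2 ⟨hi, h⟩)
      exact (not_C2 (hF i hi).2).2.2.2.1 (by linarith)
    have hle : y ≤ I.card * c + B.card * (1 - e) := by
      rw [← hS]
      apply sum_le_count B hBI
      · intro i hi hn
        exact (hnotB i hi hn).le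
      · intro i hi
        have := hSr i (hBI hi)
        linarith
    have he1 : e ≤ 1 / 2 := by nlinarith
    rcases Nat.lt_or_ge B.card r with hlt | hge
    · have hB1 : (B.card : ℝ) ≤ r - 1 := by
        have : (B.card : ℝ) + 1 ≤ r := by exact_mod_cast hlt
        linarith
      have h1 : y ≤ r * c + (r - 1) * (1 - e) := by
        have h2 : (I.card : ℝ) * c ≤ r * c := by
          apply mul_le_mul_of_nonneg_right hI'; linarith
        have h3 : (B.card : ℝ) * (1 - e) ≤ (r - 1) * (1 - e) := by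
          apply mul_le_mul_of_nonneg_right hB1; linarith
        linarith
      have h2 : c ≤ x - (r ^ 2 - r + 2) := by nlinarith
      have h3 : ∀ i ∈ I, S i < c := by
        intro i hi
        apply hnotB i hi
        intro hmem
        have := (Finset.mem_filter.1 hmem).2
        have := hPc i hi
        linarith
      have h4 := sum_lt_of hI (by linarith) (by
        have : (3 : ℝ) ≤ r := hr
        have : 3 ≤ r := by exact_mod_cast this
        omega) h3
      rw [hS] at h4
      linarith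
    · have hBr : B.card = r := le_antisymm (hBc.trans hI) hge
      have hBI' : B = I := Finset.eq_of_subset_of_card_le hBI (by omega)
      have h7 : ∑ i ∈ I, (x - (r ^ 2 - r + 2)) < ∑ i ∈ I, P i := by
        apply Finset.sum_lt_sum_of_nonempty hne
        intro i hi
        rw [← hBI'] at hi
        exact (Finset.mem_filter.1 hi).2
      rw [sum_const, nsmul_eq_mul, hP, ← hBI', hBr] at h7
      rw [← hBI', hBr] at hle
      have h8 : (x + y) * (r - 1) < 2 * (r * c) * (r - 1) := by nlinarith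
      have h9 : (0 : ℝ) < r - 1 := by linarith
      have := lt_of_mul_lt_mul_right h8 h9.le
      linarith

lemma star3 {r : ℕ} {e c : ℝ} (Q : Par r e c) :
    Star r (C2 r c) (C3 r c) (fun p s => p < 2 * r ∧ s < 2 * r) := by
  intro ι I P S x y hxy hI hP0 hS0 hP hS hL hF
  obtain ⟨hx, hy, hsum⟩ := hxy
  rcases le_total x y with h | h
  · exact star3_aux Q hx hsum h hI hP0 hS0 hP hS hL hF
  · refine star3_aux (P := S) (S := P) Q hy (by linarith) h hI hS0 hP0 hS hP
      (fun i hi => ⟨(hL i hi).2, (hL i hi).1⟩) ?_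
    intro i hi
    exact ⟨fun h => (hF i hi).2 h.symm, fun h => (hF i hi).1 h.symm⟩

lemma wins3 {r : ℕ} {e c : ℝ} (Q : Par r e c) {t τ : ℝ} (hτ : 0 < τ)
    (h2 : Wins r 2 t τ (C2 r c)) : Wins r 3 t (τ + 1) (C3 r c) := by
  refine step hτ h2 (up_C2 r c) (up_C3 r c) ?_ (dich3 Q) (star3 Q)
  rintro x y ⟨h1, h2, h3⟩
  have := Q.c4
  exact ⟨by linarith, by linarith⟩

lemma not_C3 {r c x y : ℝ} (h : ¬ C3 r c x y) (hx : 2 * c ≤ x) (hy : 2 * c ≤ y) :
    x + y < 2 * (r * c) := by
  unfold C3 at h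
  push Not at h
  exact h hx hy

lemma dich4 {r e c : ℝ} (Q : Par r e c) :
    Dich (C3 r c) (C4 r c) (fun p _ => p < 2 * c) := by
  rintro x y p s ⟨hx, hy, hsum, hl⟩ hp0 hp hs0 hs hF
  have hr := Q.hr
  have hc := Q.c4
  by_contra hno
  push Not at hno
  obtain ⟨n1, n2⟩ := hno
  have hrc : 3 * c ≤ r * c := by nlinarith
  rcases lt_or_ge (y - s) (2 * c) with h | h
  · rcases lt_or_ge s (2 * c) with h' | h'
    · linarith
    · have := not_C3 hF.2 n2 h'
      linarith
  · have h3 := not_C3 hF.1 n1 h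
    rcases lt_or_ge s (2 * c) with h' | h'
    · linarith
    · have := not_C3 hF.2 n2 h'
      linarith

lemma star4 {r : ℕ} {e c : ℝ} (Q : Par r e c) :
    Star r (C3 r c) (C4 r c) (fun p _ => p < 2 * c) := by
  classical
  rintro ι I P S x y ⟨hx, hy, hsum, hl⟩ hI hP0 hS0 hP hS hL hF
  have hr := Q.hr
  have hc := Q.c4
  have hI' : (I.card : ℝ) ≤ r := by exact_mod_cast hI
  have hne : I.Nonempty := by
    rw [Finset.nonempty_iff_ne_empty]
    rintro rfl
    simp only [sum_empty] at hP
    linarith [Q.c4]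
  have hx2 : x ≤ 2 * (r * c) := by
    have h1 : ∑ i ∈ I, P i ≤ ∑ i ∈ I, (2 * c) := Finset.sum_le_sum (fun i hi => (hL i hi).le)
    rw [sum_const, nsmul_eq_mul, hP] at h1
    nlinarith
  have hSi : ∀ i ∈ I, S i < (2 * (r * c) - x) + P i := by
    intro i hi
    have h1 := hL i hi
    have h2 : x - P i ≤ (r - 1) * (2 * c) := by
      rw [← hP, ← Finset.add_sum_erase I P hi]
      have h4 : ∑ j ∈ I.erase i, P j ≤ ∑ j ∈ I.erase i, (2 * c) :=
        Finset.sum_le_sum (fun j hj => (hL j (Finset.mem_of_mem_erase hj)).le)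
      rw [sum_const, nsmul_eq_mul, Finset.card_erase_of_mem hi] at h4
      have h5 : ((I.card - 1 : ℕ) : ℝ) ≤ r - 1 := by
        have : 1 ≤ I.card := Finset.card_pos.2 ⟨i, hi⟩
        rw [Nat.cast_sub this]
        push_cast
        linarith
      nlinarith
    rcases lt_or_ge (S i) (2 * c) with h3 | h3
    · linarith
    · have := not_C3 (hF i hi).2 (by linarith) h3
      linarith
  have h1 : ∑ i ∈ I, S i < ∑ i ∈ I, ((2 * (r * c) - x) + P i) :=
    Finset.sum_lt_sum_of_nonempty hne hSi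
  rw [Finset.sum_add_distrib, sum_const, nsmul_eq_mul, hP, hS] at h1
  nlinarith

lemma wins4 {r : ℕ} {e c : ℝ} (Q : Par r e c) {t τ : ℝ} (hτ : 0 < τ)
    (h3 : Wins r 3 t τ (C3 r c)) : Wins r 4 t (τ + 1) (C4 r c) := by
  refine step hτ h3 (up_C3 r c) (up_C4 (by linarith [Q.hr]) c) ?_ (dich4 Q) (star4 Q)
  rintro x y ⟨h1, h2, h3, h4⟩
  have := Q.c4
  have := Q.hr
  exact ⟨by linarith, by nlinarith⟩

end Pool.Agent.Helper53.Sep
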