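import Pool.Agent.Helper53.Sep.Arith3

/-!
Existence of labelled trees and the bounds for `k = 3, 4, 5`.
-/

namespace Pool.Agent.Helper53.Sep

open SimpleGraph Filter Topology

/-- `u(r,k)` of the problem. -/
noncomputable def u (r k : ℕ) : ℝ :=
  if Odd k then ((r : ℝ) - 1) ^ ((k - 1) / 2) / (r : ℝ) ^ k
  else ((r : ℝ) - 1) ^ ((k - 2) / 2) / (2 * (r : ℝ) ^ (k - 1))

lemma path_isTree (n : ℕ) : (pathGraph (n + 1)).IsTree := by
  refine ⟨pathGraph_connected n, ?_⟩
  rw [isAcyclic_iff_forall_adj_isBridge]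
  have key : ∀ u v : Fin (n + 1), u.val + 1 = v.val →
      ¬ ((pathGraph (n + 1)).deleteEdges {s(u, v)}).Reachable u v := by
    intro u v huv hreach
    have h : ∀ w, ((pathGraph (n + 1)).deleteEdges {s(u, v)}).Reachable u w → w ≤ u := by
      intro w hw
      refine reach_induct (G := (pathGraph (n + 1)).deleteEdges {s(u, v)}) (p := fun w => w ≤ u)
        (v := u) le_rfl ?_ hw
      intro a b ha hab
      rw [deleteEdges_adj, pathGraph_adj] at hab
      obtain ⟨h1, h2⟩ := hab
      by_contra hb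
      push Not at hb
      have ha' : a.val ≤ u.val := ha
      have hb' : u.val < b.val := hb
      apply h2
      have e1 : a = u := by apply Fin.ext; omega
      have e2 : b = v := by apply Fin.ext; omega
      rw [e1, e2]; simp
    have := h v hreach
    have : v.val ≤ u.val := this
    omega
  intro u v huv
  rw [isBridge_iff]
  rcases pathGraph_adj.1 huv with h | h
  · exact key u v h
  · intro hr
    apply key v u h
    have hr' := hr.symm
    rw [Sym2.eq_swap] at hr'
    exact hr'

/-- the path as a labelled tree -/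
noncomputable def pathTree (r n : ℕ) (hr : 2 ≤ r) : LabelledTree r n where
  V := Fin (n + 1)
  finite := inferInstance
  G := pathGraph (n + 1)
  isTree := path_isTree n
  degree_le := by
    intro v
    refine le_trans ?_ hr
    have hsub : (pathGraph (n + 1)).neighborSet v ⊆
        {x | x.val = v.val + 1} ∪ {x | x.val + 1 = v.val} := by
      intro x hx
      rw [mem_neighborSet, pathGraph_adj] at hx
      rcases hx with h | h
      · exact Or.inl h.symm
      · exact Or.inr h
    have h1 : ({x : Fin (n + 1) | x.val = v.val + 1}).ncard ≤ 1 := by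
      rw [Set.ncard_le_one (Set.toFinite _)]
      intro a ha b hb
      apply Fin.ext
      simp only [Set.mem_ofPred_eq] at ha hb
      omega
    have h2 : ({x : Fin (n + 1) | x.val + 1 = v.val}).ncard ≤ 1 := by
      rw [Set.ncard_le_one (Set.toFinite _)]
      intro a ha b hb
      apply Fin.ext
      simp only [Set.mem_ofPred_eq] at ha hb
      omega
    calc ((pathGraph (n + 1)).neighborSet v).ncard ≤ _ := Set.ncard_le_ncard hsub (Set.toFinite _)
      _ ≤ _ := Set.ncard_union_le _ _
      _ ≤ 2 := by omega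
  lab := ⟨Fin.castSucc, Fin.castSucc_injective n⟩

lemma le_sepMin {r k n : ℕ} (hr : 2 ≤ r) {a : ℝ}
    (h : ∀ T : Fin k → LabelledTree r n, a ≤ sepNumber T) : a ≤ sepMin r k n := by
  have hne : {m | ∃ T : Fin k → LabelledTree r n, m = sepNumber T}.Nonempty :=
    ⟨_, fun _ => pathTree r n hr, rfl⟩
  obtain ⟨T, hT⟩ := Nat.sInf_mem hne
  unfold sepMin
  rw [hT]
  exact h T

/-- general finishing lemma -/
lemma finish {r : ℕ} {e c : ℝ} (Q : Par r e c) (j : ℕ) (hj : 1 ≤ j) {D : ℝ} (hD : 4 ≤ D)
    {C : ℝ → ℝ → Prop}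
    (hC : ∀ x y, D ≤ x → D ≤ y → r * D ≤ x + y → C x y)
    (hwin : ∀ t : ℝ, 0 < t → Wins r j t (t + j) C) (n : ℕ)
    (T : Fin (j + 1) → LabelledTree r n) :
    (1 / (r * D)) * n - (j + 1 : ℕ) ≤ sepNumber T := by
  have hr := Q.hr
  have hr0 : (0 : ℝ) < r := by linarith
  set τ : ℝ := ((n : ℝ) - 1) / (r * D) with hτ
  have hrD : 0 < (r : ℝ) * D := by positivity
  have hge : (1 / (r * D)) * n - (j + 1 : ℕ) ≤ τ - j := by
    rw [hτ]
    have h1 : ((n : ℝ) - 1) / (r * D) = (1 / (r * D)) * n - 1 / (r * D) := by ring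
    rw [h1]
    have h2 : 1 / ((r : ℝ) * D) ≤ 1 := by
      rw [div_le_one hrD]; nlinarith
    push_cast
    linarith
  rcases le_or_gt (τ - j) 0 with hneg | hpos
  · refine (hge.trans hneg).trans ?_
    positivity
  · refine hge.trans ?_
    have hr1 : 1 ≤ r := by
      have : (1 : ℝ) ≤ r := by linarith
      exact_mod_cast this
    have hτpos : 0 < τ := by
      have : (0 : ℝ) ≤ j := by positivity
      linarith
    have hn : (n : ℝ) - 1 = τ * (r * D) := by
      rw [hτ, div_mul_cancel₀ _ hrD.ne']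
    have hj1 : (1 : ℝ) ≤ j := by exact_mod_cast hj
    have hτ1 : 1 < τ := by linarith
    have hn2 : 2 * r ≤ n := by
      have : (2 : ℝ) * r ≤ n := by nlinarith
      exact_mod_cast this
    refine final hr1 hpos hn2 ?_ T
    intro x y hx hy hxy
    have h1 : (n : ℝ) - 1 ≤ r * x := by rw [div_le_iff₀ hr0] at hx; linarith
    have h2 : (n : ℝ) - 1 ≤ r * y := by rw [div_le_iff₀ hr0] at hy; linarith
    have hw := hwin (τ - j) hpos (x / τ) (y / τ)
    have hττ : τ - j + j = τ := by ring
    rw [hττ, div_mul_cancel₀ _ hτpos.ne', div_mul_cancel₀ _ hτpos.ne'] at hw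
    apply hw
    apply hC
    · rw [le_div_iff₀ hτpos]
      have : (r : ℝ) * (D * τ) ≤ r * x := by linarith
      exact le_of_mul_le_mul_left this hr0
    · rw [le_div_iff₀ hτpos]
      have : (r : ℝ) * (D * τ) ≤ r * y := by linarith
      exact le_of_mul_le_mul_left this hr0
    · rw [← add_div, le_div_iff₀ hτpos]
      linarith

lemma wins0 (r : ℕ) {t : ℝ} (ht : 0 < t) : Wins r 0 t t C0 := by
  rintro x y ⟨h1, h2⟩
  exact win_zero r (by nlinarith) (by nlinarith)

lemma chain {r : ℕ} {e c : ℝ} (Q : Par r e c) {t : ℝ} (ht : 0 < t) :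
    Wins r 2 t (t + 2) (C2 r c) ∧ Wins r 3 t (t + 3) (C3 r c) ∧ Wins r 4 t (t + 4) (C4 r c) := by
  have hr3 : 3 ≤ r := by exact_mod_cast Q.hr
  have w1 := wins1 (by omega : 2 ≤ r) ht (wins0 r ht)
  have w2 := wins2 hr3 Q.c_mul (by linarith) w1
  have w3 := wins3 Q (by linarith) w2
  have w4 := wins4 Q (by linarith) w3
  refine ⟨?_, ?_, ?_⟩
  · convert w2 using 1; ring
  · convert w3 using 1; ring
  · convert w4 using 1; ring

theorem lower {r : ℕ} (hr : 3 ≤ r) {k : ℕ} (hk : k = 3 ∨ k = 4 ∨ k = 5) (n : ℕ)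
    (T : Fin k → LabelledTree r n) : u r k * n - k ≤ sepNumber T := by
  have hr' : (3 : ℝ) ≤ r := by exact_mod_cast hr
  have hr1 : (r : ℝ) - 1 ≠ 0 := by linarith
  have hr0 : (r : ℝ) ≠ 0 := by linarith
  have Q : Par r (1 / ((r : ℝ) - 1)) (r + 1 + 1 / ((r : ℝ) - 1)) :=
    ⟨hr', by field_simp, rfl⟩
  set c := (r : ℝ) + 1 + 1 / ((r : ℝ) - 1) with hcdef
  have hc : c = (r : ℝ) ^ 2 / (r - 1) := by
    rw [eq_div_iff hr1]; exact Q.c_mul
  have hc4 := Q.c4
  have hce := Q.hc
  have hrc := Q.rc
  have hcm := Q.c_mul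
  have hep := Q.e_pos
  rcases hk with rfl | rfl | rfl
  · have h := finish Q 2 (by norm_num) hc4 (C := C2 r c) ?_
      (fun t ht => by exact_mod_cast (chain Q ht).1) n T
    · have hu : u r 3 = 1 / (r * c) := by
        rw [u, if_pos (by decide), hc]; norm_num; field_simp
      rw [hu]; exact_mod_cast h
    · have key : ∀ x y, x ≤ y → c ≤ x → r * c ≤ x + y → C2 r c x y := by
        intro x y hxy hx hs
        unfold C2
        rcases le_or_gt ((r : ℝ) + 2) x with h | h
        · right; right; right; right; left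
          exact ⟨h, by nlinarith⟩
        · right; right; left
          exact ⟨hx, by nlinarith⟩
      intro x y hx hy hs
      rcases le_total x y with h | h
      · exact key x y h hx hs
      · exact (key y x h hy (by linarith)).symm
  · have h := finish Q 3 (by norm_num) (D := 2 * c) (by linarith) (C := C3 r c) ?_
      (fun t ht => by exact_mod_cast (chain Q ht).2.1) n T
    · have hu : u r 4 = 1 / (r * (2 * c)) := by
        rw [u, if_neg (by decide), hc]; norm_num; field_simp
      rw [hu]; exact_mod_cast h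
    · intro x y hx hy hs
      exact ⟨hx, hy, by linarith⟩
  · have key : ∀ x y, x ≤ y → c * c ≤ x → r * (c * c) ≤ x + y → C4 r c x y := by
      intro x y hxy hx hs
      have h1 : 4 * c ≤ c * c := by nlinarith
      have h2 : 4 * (r * c) ≤ r * (c * c) := by nlinarith
      refine ⟨by linarith, by linarith, by linarith, ?_⟩
      have h3 : (r : ℝ) * (r * c) = (r - 1) * (c * c) := by
        have : (r : ℝ) * (r * c) = c * (r : ℝ) ^ 2 := by ring
        rw [this, ← hcm]; ring
      rw [h3]
      nlinarith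
    have h := finish Q 4 (by norm_num) (D := c * c) (by nlinarith)
      (C := fun x y => C4 r c x y ∨ C4 r c y x) ?_
      (fun t ht => by
        rintro x y (h | h)
        · exact_mod_cast (chain Q ht).2.2 x y h
        · have := (chain Q ht).2.2 y x h
          exact_mod_cast this.symm) n T
    · have hu : u r 5 = 1 / (r * (c * c)) := by
        rw [u, if_pos (by decide), hc]; field_simp
      rw [hu]; exact_mod_cast h
    · intro x y hx hy hs
      rcases le_total x y with h | h
      · exact Or.inl (key x y h hx hs)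
      · exact Or.inr (key y x h hy (by linarith))

theorem limit_le {r k : ℕ} (hr : 2 ≤ r) {C : ℝ}
    (h : ∀ (n : ℕ) (T : Fin k → LabelledTree r n), u r k * n - C ≤ sepNumber T) {L : ℝ}
    (hL : Tendsto (fun n : ℕ => (sepMin r k n : ℝ) / n) atTop (𝓝 L)) : u r k ≤ L := by
  have h1 : Tendsto (fun n : ℕ => u r k - C / (n : ℝ)) atTop (𝓝 (u r k - 0)) :=
    tendsto_const_nhds.sub (tendsto_const_div_atTop_nhds_zero_nat C)
  rw [sub_zero] at h1
  refine le_of_tendsto_of_tendsto h1 hL ?_
  filter_upwards [eventually_gt_atTop 0] with n hn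
  have hn' : (0 : ℝ) < n := by exact_mod_cast hn
  rw [le_div_iff₀ hn', sub_mul, div_mul_cancel₀ _ hn'.ne']
  exact le_sepMin hr (h n)

end Pool.Agent.Helper53.Sep
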