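import Pool.Agent.Helper53.Sep.Tree

/-!
The problem (labelled trees of bounded degree, cut vectors, separation), and the
sequential game used for lower bounds.
-/

namespace Pool.Agent.Helper53.Sep

open SimpleGraph

/-- A finite tree of maximum degree at most `r`, containing `n` vertices labelled bijectively by
`Fin n` (further unlabelled vertices are allowed). -/
structure LabelledTree (r n : ℕ) where
  /-- the vertices -/
  V : Type
  /-- finitely many vertices -/
  finite : Finite V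
  /-- the tree -/
  G : SimpleGraph V
  isTree : G.IsTree
  degree_le : ∀ v, (G.neighborSet v).ncard ≤ r
  /-- the labelled vertices -/
  lab : Fin n ↪ V

/-- The partition `P_e` given by the two components of `T - e` separates `X` and `Y`. -/
def LabelledTree.Separates {r n : ℕ} (T : LabelledTree r n) (e : Sym2 T.V)
    (X Y : Finset (Fin n)) : Prop :=
  ∃ C D : (T.G.deleteEdges {e}).ConnectedComponent, C ≠ D ∧
    (∀ i ∈ X, (T.G.deleteEdges {e}).connectedComponentMk (T.lab i) = C) ∧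
    (∀ j ∈ Y, (T.G.deleteEdges {e}).connectedComponentMk (T.lab j) = D)

/-- `f(𝒯, n)`. -/
noncomputable def sepNumber {r n k : ℕ} (T : Fin k → LabelledTree r n) : ℕ :=
  sSup {m | ∃ (e : ∀ i, Sym2 (T i).V) (X Y : Finset (Fin n)), (∀ i, e i ∈ (T i).G.edgeSet) ∧
    Disjoint X Y ∧ (∀ i, (T i).Separates (e i) X Y) ∧ m = min X.card Y.card}

/-- `f(r, k, n)`. -/
noncomputable def sepMin (r k n : ℕ) : ℕ :=
  sInf {m | ∃ T : Fin k → LabelledTree r n, m = sepNumber T}

/-- `X ⊆ side v` and `Y ⊆ side u` for an edge `uv` of the tree. -/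
def LabelledTree.Cut {r n : ℕ} (T : LabelledTree r n) (X Y : Finset (Fin n)) : Prop :=
  ∃ u v, T.G.Adj u v ∧ X ⊆ side T.G T.lab u v ∧ Y ⊆ side T.G T.lab v u

lemma LabelledTree.Cut.mono {r n : ℕ} {T : LabelledTree r n} {X Y X' Y' : Finset (Fin n)}
    (h : T.Cut X Y) (hX : X' ⊆ X) (hY : Y' ⊆ Y) : T.Cut X' Y' := by
  obtain ⟨u, v, h, h1, h2⟩ := h
  exact ⟨u, v, h, hX.trans h1, hY.trans h2⟩

lemma LabelledTree.Cut.symm {r n : ℕ} {T : LabelledTree r n} {X Y : Finset (Fin n)}
    (h : T.Cut X Y) : T.Cut Y X := by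
  obtain ⟨u, v, h, h1, h2⟩ := h
  exact ⟨v, u, h.symm, h2, h1⟩

lemma LabelledTree.Cut.separates {r n : ℕ} {T : LabelledTree r n} {X Y : Finset (Fin n)}
    (h : T.Cut X Y) : ∃ e ∈ T.G.edgeSet, T.Separates e X Y := by
  obtain ⟨u, v, h, h1, h2⟩ := h
  refine ⟨s(u, v), h, (T.G.deleteEdges {s(u, v)}).connectedComponentMk v,
    (T.G.deleteEdges {s(u, v)}).connectedComponentMk u, ?_, ?_, ?_⟩
  · intro hne
    rw [ConnectedComponent.eq] at hne
    refine br_not_both T.isTree.2 h (w := u) hne (br_self _ _)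
  · intro i hi
    rw [ConnectedComponent.eq]
    exact (mem_side.1 (h1 hi)).symm
  · intro i hi
    rw [ConnectedComponent.eq]
    have := mem_side.1 (h2 hi)
    unfold Br at this
    rw [Sym2.eq_swap] at this
    exact this.symm

/-- `Win r j t x y`: given `j` trees and sets of sizes at least `x` and `y`, subsets of sizes at
least `t` can be separated in all the trees. -/
def Win (r j : ℕ) (t x y : ℝ) : Prop :=
  ∀ (n : ℕ) (T : Fin j → LabelledTree r n) (X Y : Finset (Fin n)), x ≤ X.card → y ≤ Y.card →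
    ∃ X' Y' : Finset (Fin n), X' ⊆ X ∧ Y' ⊆ Y ∧ (∀ i, (T i).Cut X' Y') ∧
      t ≤ X'.card ∧ t ≤ Y'.card

lemma Win.mono {r j : ℕ} {t x y x' y' : ℝ} (h : Win r j t x y) (hx : x ≤ x') (hy : y ≤ y') :
    Win r j t x' y' := fun n T X Y h1 h2 => h n T X Y (hx.trans h1) (hy.trans h2)

lemma Win.symm {r j : ℕ} {t x y : ℝ} (h : Win r j t x y) : Win r j t y x := by
  intro n T X Y hX hY
  obtain ⟨X', Y', h1, h2, h3, h4, h5⟩ := h n T Y X hY hX
  exact ⟨Y', X', h2, h1, fun i => (h3 i).symm, h5, h4⟩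

lemma win_zero (r : ℕ) {t x y : ℝ} (hx : t ≤ x) (hy : t ≤ y) : Win r 0 t x y := by
  intro n T X Y h1 h2
  exact ⟨X, Y, subset_rfl, subset_rfl, fun i => i.elim0, hx.trans h1, hy.trans h2⟩

/-- Upward closed binary relations. -/
def Up (C : ℝ → ℝ → Prop) : Prop := ∀ x y x' y', C x y → x ≤ x' → y ≤ y' → C x' y'

/-- `C` is winning with `j` trees, in units of `τ`. -/
def Wins (r j : ℕ) (t τ : ℝ) (C : ℝ → ℝ → Prop) : Prop :=
  ∀ x y, C x y → Win r j t (x * τ) (y * τ)

/-- the edge with `(p,s)` on one side fails. -/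
def Fails (C : ℝ → ℝ → Prop) (x y p s : ℝ) : Prop := ¬ C p (y - s) ∧ ¬ C (x - p) s

lemma Fails.swap {C : ℝ → ℝ → Prop} {x y p s : ℝ} (h : Fails C x y p s) :
    Fails C x y (x - p) (y - s) := by
  refine ⟨?_, ?_⟩
  · have : y - (y - s) = s := by ring
    rw [this]; exact h.2
  · have : x - (x - p) = p := by ring
    rw [this]; exact h.1

/-- The dichotomy condition. -/
def Dich (C C' L : ℝ → ℝ → Prop) : Prop :=
  ∀ x y p s, C' x y → 0 ≤ p → p ≤ x → 0 ≤ s → s ≤ y → Fails C x y p s →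
    L p s ∨ L (x - p) (y - s)

/-- No star fails. -/
def Star (r : ℕ) (C C' L : ℝ → ℝ → Prop) : Prop :=
  ∀ (ι : Type) (I : Finset ι) (P S : ι → ℝ) (x y : ℝ), C' x y → I.card ≤ r →
    (∀ i ∈ I, 0 ≤ P i) → (∀ i ∈ I, 0 ≤ S i) → ∑ i ∈ I, P i = x → ∑ i ∈ I, S i = y →
    (∀ i ∈ I, L (P i) (S i)) → (∀ i ∈ I, Fails C x y (P i) (S i)) → False

theorem step {r j : ℕ} {t τ : ℝ} (hτ : 0 < τ) {C C' L : ℝ → ℝ → Prop} (hC : Wins r j t τ C)
    (hup : Up C) (hup' : Up C') (hone : ∀ x y, C' x y → 1 ≤ x ∧ 1 ≤ y)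
    (hd : Dich C C' L) (hs : Star r C C' L) : Wins r (j + 1) t (τ + 1) C' := by
  classical
  intro x y hxy n T X Y hX hY
  obtain ⟨hx1, hy1⟩ := hone x y hxy
  by_contra hno
  -- the first tree
  set T0 := T 0 with hT0
  have := T0.finite
  have := Fintype.ofFinite T0.V
  have hcut : ∀ u v, T0.G.Adj u v →
      ¬ C ((X ∩ side T0.G T0.lab u v).card / τ) ((Y ∩ side T0.G T0.lab v u).card / τ) := by
    intro u v huv hCC
    obtain ⟨X', Y', h1, h2, h3, h4, h5⟩ := hC _ _ hCC n (fun i => T i.succ)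
      (X ∩ side T0.G T0.lab u v) (Y ∩ side T0.G T0.lab v u)
      (by rw [div_mul_cancel₀ _ hτ.ne']) (by rw [div_mul_cancel₀ _ hτ.ne'])
    refine hno ⟨X', Y', h1.trans Finset.inter_subset_left, h2.trans Finset.inter_subset_left,
      ?_, h4, h5⟩
    intro i
    refine Fin.cases ?_ (fun i => h3 i) i
    exact ⟨u, v, huv, h1.trans Finset.inter_subset_right, h2.trans Finset.inter_subset_right⟩
  set a : ℝ := X.card / τ with ha
  set b : ℝ := Y.card / τ with hb
  have hcomplX : ∀ u v, T0.G.Adj u v → ((X ∩ side T0.G T0.lab v u).card : ℝ) / τ =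
      a - (X ∩ side T0.G T0.lab u v).card / τ := by
    intro u v huv
    rw [ha, ← sub_div]
    congr 1
    have := side_compl T0.isTree (lab := T0.lab) huv X
    have h' : ((X ∩ side T0.G T0.lab u v).card : ℝ) + (X ∩ side T0.G T0.lab v u).card = X.card := by
      exact_mod_cast this
    linarith
  have hcomplY : ∀ u v, T0.G.Adj u v → ((Y ∩ side T0.G T0.lab v u).card : ℝ) / τ =
      b - (Y ∩ side T0.G T0.lab u v).card / τ := by
    intro u v huv
    rw [hb, ← sub_div]
    congr 1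
    have := side_compl T0.isTree (lab := T0.lab) huv Y
    have h' : ((Y ∩ side T0.G T0.lab u v).card : ℝ) + (Y ∩ side T0.G T0.lab v u).card = Y.card := by
      exact_mod_cast this
    linarith
  have hfail : ∀ u v, T0.G.Adj u v → Fails C a b ((X ∩ side T0.G T0.lab u v).card / τ)
      ((Y ∩ side T0.G T0.lab u v).card / τ) := by
    intro u v huv
    refine ⟨?_, ?_⟩
    · rw [← hcomplY u v huv]; exact hcut u v huv
    · rw [← hcomplX u v huv]; exact hcut v u huv.symm
  have hax : x ≤ a := by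
    rw [ha, le_div_iff₀ hτ]; nlinarith
  have hby : y ≤ b := by
    rw [hb, le_div_iff₀ hτ]; nlinarith
  have hab : C' a b := hup' _ _ _ _ hxy hax hby
  obtain ⟨v, hv⟩ := sink T0.isTree T0.lab
    (fun A => L ((X ∩ A).card / τ) ((Y ∩ A).card / τ)) (by
      intro u v huv
      have h := hd a b ((X ∩ side T0.G T0.lab u v).card / τ) ((Y ∩ side T0.G T0.lab u v).card / τ)
        hab (by positivity)
        (by rw [ha]; gcongr; exact Finset.inter_subset_left) (by positivity)
        (by rw [hb]; gcongr; exact Finset.inter_subset_left) (hfail u v huv)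
      rw [← hcomplX u v huv, ← hcomplY u v huv] at h
      exact h)
  obtain ⟨hX1, hX2⟩ := card_sum_branches T0.isTree T0.lab.injective v X
  obtain ⟨hY1, hY2⟩ := card_sum_branches T0.isTree T0.lab.injective v Y
  have hX1' : (∑ w ∈ T0.G.neighborFinset v, ((X ∩ side T0.G T0.lab v w).card : ℝ)) ≤ X.card := by
    exact_mod_cast hX1
  have hY1' : (∑ w ∈ T0.G.neighborFinset v, ((Y ∩ side T0.G T0.lab v w).card : ℝ)) ≤ Y.card := by
    exact_mod_cast hY1
  have hX2' : (X.card : ℝ) ≤ (∑ w ∈ T0.G.neighborFinset v, ((X ∩ side T0.G T0.lab v w).card : ℝ))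
      + 1 := by
    exact_mod_cast hX2
  have hY2' : (Y.card : ℝ) ≤ (∑ w ∈ T0.G.neighborFinset v, ((Y ∩ side T0.G T0.lab v w).card : ℝ))
      + 1 := by
    exact_mod_cast hY2
  set a' : ℝ := ∑ w ∈ T0.G.neighborFinset v, ((X ∩ side T0.G T0.lab v w).card : ℝ) / τ with ha'
  set b' : ℝ := ∑ w ∈ T0.G.neighborFinset v, ((Y ∩ side T0.G T0.lab v w).card : ℝ) / τ with hb'
  have haa : a' ≤ a := by
    rw [ha', ha, ← Finset.sum_div]; gcongr
  have hbb : b' ≤ b := by
    rw [hb', hb, ← Finset.sum_div]; gcongr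
  have hxa' : x ≤ a' := by
    rw [ha', ← Finset.sum_div, le_div_iff₀ hτ]; nlinarith
  have hyb' : y ≤ b' := by
    rw [hb', ← Finset.sum_div, le_div_iff₀ hτ]; nlinarith
  have hcard : (T0.G.neighborFinset v).card ≤ r := by
    have h := T0.degree_le v
    rw [Set.ncard_eq_toFinset_card'] at h
    exact h
  refine hs T0.V (T0.G.neighborFinset v) (fun w => ((X ∩ side T0.G T0.lab v w).card : ℝ) / τ)
    (fun w => ((Y ∩ side T0.G T0.lab v w).card : ℝ) / τ) a' b' (hup' _ _ _ _ hxy hxa' hyb') hcard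
    (fun w _ => by positivity) (fun w _ => by positivity) rfl rfl ?_ ?_
  · intro w hw
    exact hv w (by simpa using hw)
  · intro w hw
    have hadj : T0.G.Adj v w := by simpa using hw
    obtain ⟨h1, h2⟩ := hfail v w hadj
    refine ⟨fun h => h1 (hup _ _ _ _ h le_rfl (by linarith)),
      fun h => h2 (hup _ _ _ _ h (by linarith) le_rfl)⟩

/-- The first cut: every tree has an edge both sides of which have at least `(n-1)/r` labels. -/
theorem first_cut {r n : ℕ} (hr : 1 ≤ r) (T : LabelledTree r n) (hn : 2 * r ≤ n) :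
    ∃ u v, T.G.Adj u v ∧ ((n : ℝ) - 1) / r ≤ (side T.G T.lab u v).card ∧
      ((n : ℝ) - 1) / r ≤ (side T.G T.lab v u).card ∧
      ((side T.G T.lab u v).card : ℝ) + (side T.G T.lab v u).card = n := by
  classical
  have := T.finite
  have := Fintype.ofFinite T.V
  by_contra hno
  push Not at hno
  have hr0 : (0 : ℝ) < r := by exact_mod_cast hr
  have hn' : (2 : ℝ) * r ≤ n := by exact_mod_cast hn
  obtain ⟨v, hv⟩ := sink T.isTree T.lab (fun A => ((A.card : ℕ) : ℝ) < ((n : ℝ) - 1) / r) (by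
    intro u v huv
    by_contra h
    push Not at h
    have h3 := hno u v huv h.1 h.2
    apply h3
    have := side_compl T.isTree (lab := T.lab) huv Finset.univ
    simp only [Finset.univ_inter, Finset.card_univ, Fintype.card_fin] at this
    exact_mod_cast this)
  obtain ⟨hX1, hX2⟩ := card_sum_branches T.isTree T.lab.injective v Finset.univ
  simp only [Finset.univ_inter, Finset.card_univ, Fintype.card_fin] at hX1 hX2
  have hX2' : (n : ℝ) ≤ (∑ w ∈ T.G.neighborFinset v, ((side T.G T.lab v w).card : ℝ)) + 1 := by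
    exact_mod_cast hX2
  have hcard : (T.G.neighborFinset v).card ≤ r := by
    have h := T.degree_le v
    rw [Set.ncard_eq_toFinset_card'] at h
    exact h
  rcases (T.G.neighborFinset v).eq_empty_or_nonempty with he | hne
  · rw [he] at hX2'
    simp only [Finset.sum_empty, zero_add] at hX2'
    have : (1 : ℝ) ≤ r := by exact_mod_cast hr
    linarith
  · have h1 : (∑ w ∈ T.G.neighborFinset v, ((side T.G T.lab v w).card : ℝ)) <
        ∑ w ∈ T.G.neighborFinset v, ((n : ℝ) - 1) / r :=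
      Finset.sum_lt_sum_of_nonempty hne (fun w hw => hv w (by simpa using hw))
    rw [Finset.sum_const, nsmul_eq_mul] at h1
    have h2 : ((T.G.neighborFinset v).card : ℝ) * (((n : ℝ) - 1) / r) ≤ r * (((n : ℝ) - 1) / r) := by
      apply mul_le_mul_of_nonneg_right
      · exact_mod_cast hcard
      · apply div_nonneg _ hr0.le
        have : (1 : ℝ) ≤ r := by exact_mod_cast hr
        linarith
    rw [mul_div_cancel₀ _ hr0.ne'] at h2
    linarith

/-- From a winning region to the separation number. -/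
theorem final {r k n : ℕ} (hr : 1 ≤ r) {t : ℝ} (ht : 0 < t) (hn : 2 * r ≤ n)
    (hw : ∀ x y : ℝ, ((n : ℝ) - 1) / r ≤ x → ((n : ℝ) - 1) / r ≤ y → x + y = n →
      Win r k t x y) (T : Fin (k + 1) → LabelledTree r n) : t ≤ sepNumber T := by
  classical
  obtain ⟨u, v, huv, h1, h2, h3⟩ := first_cut hr (T 0) hn
  obtain ⟨X', Y', hX, hY, hc, hX', hY'⟩ := hw _ _ h1 h2 h3 n (fun i => T i.succ) _ _ le_rfl le_rfl
  have hcut : ∀ i, (T i).Cut X' Y' := by
    intro i
    refine Fin.cases ?_ (fun i => hc i) i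
    exact ⟨u, v, huv, hX, hY⟩
  have hdis : Disjoint X' Y' := by
    rw [Finset.disjoint_left]
    intro i hi hi'
    exact br_not_both (T 0).isTree.2 huv (mem_side.1 (hX hi)) (mem_side.1 (hY hi'))
  choose e he hsep using fun i => (hcut i).separates
  have hmem : min X'.card Y'.card ∈ {m | ∃ (e : ∀ i, Sym2 (T i).V) (X Y : Finset (Fin n)),
      (∀ i, e i ∈ (T i).G.edgeSet) ∧ Disjoint X Y ∧ (∀ i, (T i).Separates (e i) X Y) ∧
        m = min X.card Y.card} := ⟨e, X', Y', he, hdis, hsep, rfl⟩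
  have hbdd : BddAbove {m | ∃ (e : ∀ i, Sym2 (T i).V) (X Y : Finset (Fin n)),
      (∀ i, e i ∈ (T i).G.edgeSet) ∧ Disjoint X Y ∧ (∀ i, (T i).Separates (e i) X Y) ∧
        m = min X.card Y.card} := by
    refine ⟨n, ?_⟩
    rintro m ⟨e, X, Y, _, _, _, rfl⟩
    refine (min_le_left _ _).trans ?_
    simpa using Finset.card_le_univ X
  have hle : min X'.card Y'.card ≤ sepNumber T := le_csSup hbdd hmem
  have : t ≤ ((min X'.card Y'.card : ℕ) : ℝ) := by
    rw [Nat.cast_min]; exact le_min hX' hY'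
  exact this.trans (by exact_mod_cast hle)

end Pool.Agent.Helper53.Sep
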