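import Mathlib

/-!
Labelled trees, the two sides of an edge, the sink lemma.
-/

namespace Pool.Agent.Helper53.Sep

open SimpleGraph

variable {V : Type*} {G : SimpleGraph V}

/-- `w` is on the side of `v` after deleting the edge `s(u,v)`. -/
def Br (G : SimpleGraph V) (u v w : V) : Prop := (G.deleteEdges {s(u, v)}).Reachable v w

lemma adj_del {u v a b : V} (h : G.Adj a b) (hne : s(a, b) ≠ s(u, v)) :
    (G.deleteEdges {s(u, v)}).Adj a b := by
  rw [deleteEdges_adj]
  exact ⟨h, by simpa using hne⟩

lemma br_self (u v : V) : Br G u v v := Reachable.refl _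

lemma br_step {u v a b : V} (ha : Br G u v a) (h : G.Adj a b) (hne : s(a, b) ≠ s(u, v)) :
    Br G u v b := Reachable.trans ha (adj_del h hne).reachable

/-- Induction principle along the branch. -/
lemma br_induct {u v : V} {p : V → Prop} (h0 : p v)
    (hs : ∀ a b, Br G u v a → p a → G.Adj a b → s(a, b) ≠ s(u, v) → p b)
    {w : V} (hw : Br G u v w) : p w := by
  obtain ⟨q⟩ := hw
  have key : ∀ (a w : V) (q : (G.deleteEdges {s(u, v)}).Walk a w), Br G u v a → p a → p w := by
    intro a w q
    induction q with
    | nil => intro _ h; exact h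
    | @cons a b w hadj q ih =>
      intro ha hp
      rw [deleteEdges_adj] at hadj
      have hne : s(a, b) ≠ s(u, v) := by simpa using hadj.2
      exact ih (br_step ha hadj.1 hne) (hs _ _ ha hp hadj.1 hne)
  exact key v w q (br_self u v) h0

lemma reach_induct {v : V} {p : V → Prop} (h0 : p v)
    (hs : ∀ a b, p a → G.Adj a b → p b) {w : V} (hw : G.Reachable v w) : p w := by
  obtain ⟨q⟩ := hw
  induction q with
  | nil => exact h0
  | cons hadj q ih => exact ih (hs _ _ h0 hadj)

lemma br_cover (hc : G.Connected) {u v : V} (w : V) : Br G u v w ∨ Br G v u w := by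
  refine reach_induct (G := G) (p := fun w => Br G u v w ∨ Br G v u w) (v := u) ?_ ?_
    (hc.preconnected u w)
  · exact Or.inr (br_self v u)
  · rintro a b (ha | ha) hab
    · by_cases h : s(a, b) = s(u, v)
      · rcases Sym2.eq_iff.1 h with ⟨_, h2⟩ | ⟨_, h2⟩
        · subst h2; exact Or.inl (br_self _ _)
        · subst h2; exact Or.inr (br_self _ _)
      · exact Or.inl (br_step ha hab h)
    · by_cases h : s(a, b) = s(v, u)
      · rcases Sym2.eq_iff.1 h with ⟨_, h2⟩ | ⟨_, h2⟩
        · subst h2; exact Or.inr (br_self _ _)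
        · subst h2; exact Or.inl (br_self _ _)
      · exact Or.inr (br_step ha hab h)

lemma br_not_both (ha : G.IsAcyclic) {u v : V} (h : G.Adj u v) {w : V} (h1 : Br G u v w)
    (h2 : Br G v u w) : False := by
  have hb := (isAcyclic_iff_forall_adj_isBridge.1 ha) h
  rw [isBridge_iff] at hb
  apply hb
  unfold Br at h1 h2
  rw [Sym2.eq_swap] at h2
  exact Reachable.trans h2 h1.symm

lemma br_nest (ha : G.IsAcyclic) {v w z : V} (hvw : G.Adj v w) (hwz : G.Adj w z) (hz : z ≠ v)
    {x : V} (hx : Br G w z x) : Br G v w x := by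
  refine br_induct (p := fun x => Br G v w x) ?_ ?_ hx
  · refine br_step (br_self v w) hwz ?_
    intro h
    rcases Sym2.eq_iff.1 h with ⟨h1, h2⟩ | ⟨h1, h2⟩
    · subst h1; exact (hvw.ne rfl).elim
    · exact hz h2
  · intro a b hba hpa hab hne
    refine br_step hpa hab ?_
    intro h
    -- one of `a`, `b` is `w`
    have hbb : Br G w z b := br_step hba hab hne
    rcases Sym2.eq_iff.1 h with ⟨h1, h2⟩ | ⟨h1, h2⟩
    · subst h2
      exact br_not_both ha hwz hbb (br_self _ _)
    · subst h1
      exact br_not_both ha hwz hba (br_self _ _)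

lemma br_exists (hc : G.Connected) (v x : V) : x = v ∨ ∃ w, G.Adj v w ∧ Br G v w x := by
  refine reach_induct (G := G) (p := fun x => x = v ∨ ∃ w, G.Adj v w ∧ Br G v w x) (v := v)
    (Or.inl rfl) ?_ (hc.preconnected v x)
  rintro a b (rfl | ⟨w, hw, hb⟩) hab
  · exact Or.inr ⟨b, hab, br_self _ _⟩
  · by_cases hbv : b = v
    · exact Or.inl hbv
    · right
      by_cases h : s(a, b) = s(v, w)
      · rcases Sym2.eq_iff.1 h with ⟨h1, h2⟩ | ⟨h1, h2⟩
        · subst h2; exact ⟨b, hw, br_self _ _⟩
        · exact (hbv h2).elim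
      · exact ⟨w, hw, br_step hb hab h⟩

lemma br_unique (ha : G.IsAcyclic) {v w w' x : V} (hw : G.Adj v w) (hw' : G.Adj v w')
    (h : Br G v w x) (h' : Br G v w' x) : w = w' := by
  by_contra hne
  have h1 : Br G w v x := br_nest ha hw.symm hw' (Ne.symm hne) h'
  exact br_not_both ha hw h h1

lemma not_br_centre (ha : G.IsAcyclic) {v w : V} (hw : G.Adj v w) : ¬ Br G v w v := by
  intro h
  exact br_not_both ha hw h (br_self _ _)

/-- The labels on the side of `v` after deleting the edge `s(u,v)`. -/
noncomputable def side (G : SimpleGraph V) {n : ℕ} (lab : Fin n → V) (u v : V) : Finset (Fin n) :=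
  by classical exact Finset.univ.filter (fun i => Br G u v (lab i))

lemma mem_side {n : ℕ} {lab : Fin n → V} {u v : V} {i : Fin n} :
    i ∈ side G lab u v ↔ Br G u v (lab i) := by
  classical
  unfold side
  simp

/-- Sink lemma. -/
lemma sink [Finite V] (ht : G.IsTree) {n : ℕ} (lab : Fin n → V) (Q : Finset (Fin n) → Prop)
    (hQ : ∀ u v, G.Adj u v → Q (side G lab u v) ∨ Q (side G lab v u)) :
    ∃ v, ∀ w, G.Adj v w → Q (side G lab v w) := by
  classical
  have := Fintype.ofFinite V
  by_cases hall : ∀ u v, G.Adj u v → Q (side G lab u v)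
  · have : Nonempty V := ht.1.nonempty
    exact ⟨Classical.arbitrary V, fun w hw => hall _ _ hw⟩
  · push Not at hall
    let S : Finset (V × V) := Finset.univ.filter (fun p => G.Adj p.1 p.2 ∧ ¬ Q (side G lab p.1 p.2))
    have hS : S.Nonempty := by
      obtain ⟨u, v, h, h'⟩ := hall
      exact ⟨(u, v), by simp [S, h, h']⟩
    obtain ⟨p, hp, hmin⟩ := Finset.exists_min_image S
      (fun p => (Finset.univ.filter (fun x => Br G p.1 p.2 x)).card) hS
    obtain ⟨v, w⟩ := p
    simp only [S, Finset.mem_filter, Finset.mem_univ, true_and] at hp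
    refine ⟨w, fun z hz => ?_⟩
    by_cases hzv : z = v
    · subst hzv
      rcases hQ z w hp.1 with h | h
      · exact (hp.2 h).elim
      · exact h
    · by_contra hnot
      have hmem : (w, z) ∈ S := by simp [S, hz, hnot]
      have hle := hmin _ hmem
      have hlt : (Finset.univ.filter (fun x => Br G w z x)).card <
          (Finset.univ.filter (fun x => Br G v w x)).card := by
        apply Finset.card_lt_card
        refine ⟨?_, ?_⟩
        · intro x hx
          simp only [Finset.mem_filter, Finset.mem_univ, true_and] at hx ⊢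
          exact br_nest ht.2 hp.1 hz hzv hx
        · intro hsub
          have h1 : w ∈ Finset.univ.filter (fun x => Br G v w x) := by
            simp [br_self]
          have h2 := hsub h1
          simp only [Finset.mem_filter, Finset.mem_univ, true_and] at h2
          exact not_br_centre ht.2 hz h2
      simp only at hle
      omega

/-- The branches at a vertex partition the labels, up to the label of the vertex. -/
lemma card_sum_branches [Fintype V] [DecidableRel G.Adj] (ht : G.IsTree) {n : ℕ} {lab : Fin n → V}
    (hlab : Function.Injective lab) (v : V) (X : Finset (Fin n)) :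
    (∑ w ∈ G.neighborFinset v, (X ∩ side G lab v w).card) ≤ X.card ∧
    X.card ≤ (∑ w ∈ G.neighborFinset v, (X ∩ side G lab v w).card) + 1 := by
  classical
  have hdisj : Set.PairwiseDisjoint (G.neighborFinset v : Set V)
      (fun w => X ∩ side G lab v w) := by
    intro w hw w' hw' hne
    rw [Function.onFun, Finset.disjoint_left]
    intro i hi hi'
    simp only [Finset.mem_inter, mem_side] at hi hi'
    simp only [coe_neighborFinset, mem_neighborSet] at hw hw'
    exact hne (br_unique ht.2 hw hw' hi.2 hi'.2)
  rw [← Finset.card_biUnion hdisj]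
  constructor
  · apply Finset.card_le_card
    intro i hi
    rw [Finset.mem_biUnion] at hi
    obtain ⟨w, _, hw⟩ := hi
    exact (Finset.mem_inter.1 hw).1
  · have hsub : X ⊆ (G.neighborFinset v).biUnion (fun w => X ∩ side G lab v w) ∪
        (Finset.univ.filter (fun i => lab i = v)) := by
      intro i hi
      rcases br_exists ht.1 v (lab i) with h | ⟨w, hw, hb⟩
      · simp [h]
      · rw [Finset.mem_union]
        left
        rw [Finset.mem_biUnion]
        exact ⟨w, by simpa using hw, by simp [mem_side, hi, hb]⟩
    have h1 : (Finset.univ.filter (fun i : Fin n => lab i = v)).card ≤ 1 := by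
      rw [Finset.card_le_one]
      intro a ha b hb
      simp only [Finset.mem_filter, Finset.mem_univ, true_and] at ha hb
      exact hlab (ha.trans hb.symm)
    calc X.card ≤ _ := Finset.card_le_card hsub
      _ ≤ _ := Finset.card_union_le _ _
      _ ≤ _ := by omega

lemma side_compl (ht : G.IsTree) {n : ℕ} {lab : Fin n → V} {u v : V} (h : G.Adj u v)
    (X : Finset (Fin n)) : (X ∩ side G lab u v).card + (X ∩ side G lab v u).card = X.card := by
  classical
  have hd : Disjoint (X ∩ side G lab u v) (X ∩ side G lab v u) := by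
    rw [Finset.disjoint_left]
    intro i hi hi'
    simp only [Finset.mem_inter, mem_side] at hi hi'
    exact br_not_both ht.2 h hi.2 hi'.2
  rw [← Finset.card_union_of_disjoint hd]
  congr 1
  ext i
  simp only [Finset.mem_union, Finset.mem_inter, mem_side]
  constructor
  · rintro (h | h) <;> exact h.1
  · intro hi
    rcases br_cover ht.1 (u := u) (v := v) (lab i) with h | h
    · exact Or.inl ⟨hi, h⟩
    · exact Or.inr ⟨hi, h⟩

end Pool.Agent.Helper53.Sep
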